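import Mathlib
import Pool.Agent.D0H81.YN.Fin
import Pool.Agent.Q63.ISE.Man

/-!
# Yau's conjecture for surfaces (MP_c7f82c_an)

For every closed connected smooth Riemannian surface there are constants `c, C > 0` such that
`c √λ ≤ H¹({f = 0}) ≤ C √λ` for every eigenfunction `f` of the Laplace-Beltrami operator with
eigenvalue `λ > 0`. No analyticity is assumed. The upper bound is the open part of Yau's conjecture in
dimension two; it is equivalent to the bound for the average doubling index asked in the problem.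

Proof of the upper bound. (1) Local estimate: if `Δu + q u = 0` in the disc `B₁₆`, `0 ≤ q ≤ 1`,
`|∇q| ≤ 1` and `N = log (sup_{B₁₆} |u| / sup_{B₁} |u|)`, then `H¹({u = 0} ∩ B₁) ≤ C (1 + N)`. In the
plane `Δ log (u² + |∇u|² + τ) ≥ -14` for all `τ > 0`. Hence `v = log (u² + |∇u|² + τ) / 2` is almost
subharmonic, its mean value is bounded below, and `∫ |∇v| ≤ C (1 + N)` follows from the test function
`χ² m^(-1/2)`, `m = K + 1 - v`, and the Gagliardo-Nirenberg inequality. The divergence theorem for the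
field `arctan (u/ε) ∇u / √P`, `P = u² + |∇u|² + ε²`, gives
`∫ ε/(ε² + u²) |∇u|²/√P ≤ C (1 + N)`, uniformly in `ε`. Around every zero `y` the function `u` takes
both signs on all small circles, so that the integral over the disc `B(y, 2δ)` is at least `δ/2` for
small `ε`; so there are at most `C (1 + N)/δ` zeros with mutual distances `4δ`, for all small `δ`.
(2) Global part: the sum of the growth exponents over the discs of radius `≍ λ^(-1/2)` with bounded
multiplicity is at most `A λ`, by the library theorem `Pool.Agent.Q73.AD.fin_z6`.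

Proof of the lower bound (Brüning): zeros in all discs of radius `K λ^(-1/2)`, and a zero on every
small circle around a zero.
-/

set_option autoImplicit false
open MeasureTheory Filter Topology Complex Bundle
open scoped ContDiff Manifold

namespace Pool.Agent.Results.MP_c7f82c_an.YauSurfaces

noncomputable section

universe u v

variable {E : Type v} [NormedAddCommGroup E] [NormedSpace ℝ E] (b : Module.Basis (Fin 2) ℝ E)
  {M : Type u} [TopologicalSpace M] [ChartedSpace E M]

/-- the coordinate vector `∂_i` of the chart at `x₀`, at the point with coordinates `z` -/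
def coordVec (x₀ : M) (z : E) (i : Fin 2) :
    TangentSpace 𝓘(ℝ, E) ((extChartAt 𝓘(ℝ, E) x₀).symm z) :=
  mfderiv 𝓘(ℝ, E) 𝓘(ℝ, E) (extChartAt 𝓘(ℝ, E) x₀).symm z (b i)

/-- the matrix `g_ij = ⟨∂_i, ∂_j⟩` of the metric in the chart at `x₀` -/
def metricMatrix [RiemannianBundle (fun x : M => TangentSpace 𝓘(ℝ, E) x)] (x₀ : M) (z : E) :
    Matrix (Fin 2) (Fin 2) ℝ :=
  Matrix.of fun i j => inner ℝ (coordVec b x₀ z i) (coordVec b x₀ z j)

/-- the Laplace-Beltrami operator in coordinates: `(det g)^(-1/2) ∑_i ∂_i ((det g)^(1/2) ∑_j g^ij ∂_j h)` -/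
def laplaceBeltrami (g : E → Matrix (Fin 2) (Fin 2) ℝ) (h : E → ℝ) (z : E) : ℝ :=
  (√((g z).det))⁻¹ * ∑ i, fderiv ℝ (fun y => √((g y).det) *
    ∑ j, (g y)⁻¹ i j * fderiv ℝ h y (b j)) z (b i)

/-- `f` is a real smooth eigenfunction on the Riemannian manifold `M`: `Δ_g f + lam f = 0`, `f ≢ 0` -/
structure IsEigenfunctionOn [RiemannianBundle (fun x : M => TangentSpace 𝓘(ℝ, E) x)] (lam : ℝ)
    (f : M → ℝ) : Prop where
  smooth : ContMDiff 𝓘(ℝ, E) 𝓘(ℝ, ℝ) ∞ f
  eq : ∀ x₀ : M, ∀ z ∈ (extChartAt 𝓘(ℝ, E) x₀).target,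
    laplaceBeltrami b (metricMatrix b x₀) (fun y => f ((extChartAt 𝓘(ℝ, E) x₀).symm y)) z
      + lam * f ((extChartAt 𝓘(ℝ, E) x₀).symm z) = 0
  ne : ∃ x, f x ≠ 0

/-- **Yau's conjecture for surfaces.** On every closed connected smooth Riemannian surface (Riemannian
manifold of dimension two in the sense of Mathlib, with its geodesic distance) the length (the
one-dimensional Hausdorff measure) of the nodal set of every eigenfunction with eigenvalue `lam > 0` is
between `c √lam` and `C √lam`, where `c, C > 0` depend only on the surface. -/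
theorem result (E : Type v) [NormedAddCommGroup E] [NormedSpace ℝ E] (b : Module.Basis (Fin 2) ℝ E)
    (M : Type u) [MetricSpace M] [ChartedSpace E M] [IsManifold 𝓘(ℝ, E) ∞ M]
    [RiemannianBundle (fun x : M => TangentSpace 𝓘(ℝ, E) x)]
    [IsContMDiffRiemannianBundle 𝓘(ℝ, E) ∞ E (fun x : M => TangentSpace 𝓘(ℝ, E) x)]
    [IsRiemannianManifold 𝓘(ℝ, E) M] [CompactSpace M] [ConnectedSpace M]
    [MeasurableSpace M] [BorelSpace M] :
    ∃ c C : ℝ, 0 < c ∧ 0 < C ∧ ∀ (lam : ℝ) (f : M → ℝ), 0 < lam → IsEigenfunctionOn b lam f →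
      ENNReal.ofReal (c * √lam) ≤ μH[1] {x : M | f x = 0} ∧
      μH[1] {x : M | f x = 0} ≤ ENNReal.ofReal (C * √lam) := by
  obtain ⟨U, φ, ρ, hR, -, hE⟩ := Pool.Agent.Q63.ISE.atlas b M
  obtain ⟨c, C, hc, hC, h⟩ := Pool.Agent.D0H81.YN.yau.{u, u} M M U φ ρ
    (Pool.Agent.Q73.AD.tr1 M M U φ ρ hR) hR.pos
  exact ⟨c, C, hc, hC, fun lam f hlam hf => h lam f hlam (hE lam f ⟨hf.smooth, hf.eq⟩) hf.ne⟩

end

end Pool.Agent.Results.MP_c7f82c_an.YauSurfaces
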